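import Pool.Agent.Lib.MP_b3f678_an.Defs
import Pool.Agent.Lib.MP_b3f678_an.Final

/-!
Question 1, negative answer: every reversible abelian cellular automaton that is randomizing in
density is strongly randomizing.
-/

set_option autoImplicit false

namespace Pool.Agent.Results.MP_b3f678_an.StrongIffDensity

open Pool.Agent.Lib.MP_b3f678_an

universe u

/-- For a reversible abelian cellular automaton over a finite abelian group, strong randomization
and randomization in density are equivalent. -/
theorem result :
    ∀ (A : Type u) [AddCommGroup A] [Finite A] [TopologicalSpace A] [DiscreteTopology A]
      [MeasurableSpace A] [DiscreteMeasurableSpace A] (F : (ℤ → A) → (ℤ → A)),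
      IsAbelianCA F → Function.Bijective F →
      (RandomizingInDensity F ↔ StronglyRandomizing F) := by
  intro A _ _ _ _ _ _ F hF hb
  exact (strongly_iff_density hF hb).symm

end Pool.Agent.Results.MP_b3f678_an.StrongIffDensity
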